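import Mathlib
import Pool.Agent.H220.K.Stm

set_option autoImplicit false

open Set Filter Topology Metric
open scoped ContDiff ComplexConjugate

/-!
# Chain rule for the Levi form under holomorphic maps (helper784 for helper220)
-/

namespace Pool.Agent.H784.K

open Pool.Agent.H220.K

/-- the second derivative of a `C²` function along a curve -/
theorem second_comp {F : Type*} [NormedAddCommGroup F] [NormedSpace ℝ F] {φ : F → ℝ}
    {γ γ' : ℝ → F} {γ2 p : F} (hp : γ 0 = p) (hφ : ContDiffAt ℝ 2 φ p)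
    (h1 : ∀ᶠ t in 𝓝 (0 : ℝ), HasDerivAt γ (γ' t) t) (h2 : HasDerivAt γ' γ2 0) :
    iteratedDeriv 2 (fun t => φ (γ t)) 0 =
      (fderiv ℝ (fderiv ℝ φ) p (γ' 0)) (γ' 0) + fderiv ℝ φ p γ2 := by
  subst hp
  have hγ0 : HasDerivAt γ (γ' 0) 0 := h1.self_of_nhds
  have hev : ∀ᶠ y in 𝓝 (γ 0), DifferentiableAt ℝ φ y := by
    filter_upwards [hφ.eventually (by simp)] with y hy
    exact hy.differentiableAt (by norm_num)
  have hd : deriv (fun t => φ (γ t)) =ᶠ[𝓝 0] fun t => (fderiv ℝ φ (γ t)) (γ' t) := by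
    filter_upwards [h1, hγ0.continuousAt.eventually hev] with t ht1 ht2
    exact (ht2.hasFDerivAt.comp_hasDerivAt t ht1).deriv
  have hD : DifferentiableAt ℝ (fderiv ℝ φ) (γ 0) :=
    (hφ.fderiv_right (m := 1) (by norm_num)).differentiableAt (by norm_num)
  have h3 : HasDerivAt (fun t => fderiv ℝ φ (γ t)) (fderiv ℝ (fderiv ℝ φ) (γ 0) (γ' 0)) 0 :=
    hD.hasFDerivAt.comp_hasDerivAt 0 hγ0
  rw [iteratedDeriv_succ, iteratedDeriv_one, hd.deriv_eq]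
  exact (h3.clm_apply h2).deriv

section General

variable {E F : Type*} [NormedAddCommGroup E] [NormedSpace ℂ E] [NormedSpace ℝ E]
  [IsScalarTower ℝ ℂ E] [NormedAddCommGroup F] [NormedSpace ℂ F] [NormedSpace ℝ F]
  [IsScalarTower ℝ ℂ F]

theorem line_deriv (x ξ : E) (c : ℂ) (t : ℝ) :
    HasDerivAt (fun t : ℝ => x + ((t : ℂ) * c) • ξ) (c • ξ) t := by
  have h1 : HasDerivAt (fun t : ℝ => (t : ℂ) * c) c t := by
    have := (Complex.ofRealCLM.hasDerivAt (x := t)).mul_const c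
    simpa using this
  exact (h1.smul_const ξ).const_add x

theorem second_map {Ψ : E → F} {φ : F → ℝ} {x : E} (ξ : E) (c : ℂ) (hΨ : ContDiffAt ℂ 2 Ψ x)
    (hφ : ContDiffAt ℝ 2 φ (Ψ x)) :
    iteratedDeriv 2 (fun t : ℝ => φ (Ψ (x + ((t : ℂ) * c) • ξ))) 0 =
      (fderiv ℝ (fderiv ℝ φ) (Ψ x) (c • fderiv ℂ Ψ x ξ)) (c • fderiv ℂ Ψ x ξ) +
        fderiv ℝ φ (Ψ x) ((c * c) • (fderiv ℂ (fderiv ℂ Ψ) x ξ) ξ) := by
  have hx0 : x + (((0 : ℝ) : ℂ) * c) • ξ = x := by simp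
  have hev : ∀ᶠ y in 𝓝 x, DifferentiableAt ℂ Ψ y := by
    filter_upwards [hΨ.eventually (by simp)] with y hy
    exact hy.differentiableAt (by norm_num)
  have htend : Tendsto (fun t : ℝ => x + ((t : ℂ) * c) • ξ) (𝓝 0) (𝓝 x) := by
    have h : Tendsto (fun t : ℝ => x + ((t : ℂ) * c) • ξ) (𝓝 0)
        (𝓝 (x + (((0 : ℝ) : ℂ) * c) • ξ)) := (line_deriv x ξ c 0).continuousAt
    rwa [hx0] at h
  have h1 : ∀ᶠ t : ℝ in 𝓝 (0 : ℝ), HasDerivAt (fun t : ℝ => Ψ (x + ((t : ℂ) * c) • ξ))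
      ((fderiv ℂ Ψ (x + ((t : ℂ) * c) • ξ)) (c • ξ)) t := by
    filter_upwards [htend.eventually hev] with t ht
    exact (ht.hasFDerivAt.restrictScalars ℝ).comp_hasDerivAt t (line_deriv x ξ c t)
  have hD : DifferentiableAt ℂ (fderiv ℂ Ψ) x :=
    (hΨ.fderiv_right (m := 1) (by norm_num)).differentiableAt (by norm_num)
  have h3 : HasDerivAt (fun t : ℝ => fderiv ℂ Ψ (x + ((t : ℂ) * c) • ξ))
      (fderiv ℂ (fderiv ℂ Ψ) x (c • ξ)) 0 := by
    have hD' : HasFDerivAt (fderiv ℂ Ψ) ((fderiv ℂ (fderiv ℂ Ψ) x).restrictScalars ℝ)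
        (x + (((0 : ℝ) : ℂ) * c) • ξ) := by
      rw [hx0]
      exact hD.hasFDerivAt.restrictScalars ℝ
    exact hD'.comp_hasDerivAt 0 (line_deriv x ξ c 0)
  have h2 : HasDerivAt (fun t : ℝ => (fderiv ℂ Ψ (x + ((t : ℂ) * c) • ξ)) (c • ξ))
      ((fderiv ℂ (fderiv ℂ Ψ) x (c • ξ)) (c • ξ)) 0 := by
    have hap : HasFDerivAt (fun A : E →L[ℂ] F => A (c • ξ))
        ((ContinuousLinearMap.apply ℂ F (c • ξ)).restrictScalars ℝ)
        (fderiv ℂ Ψ (x + (((0 : ℝ) : ℂ) * c) • ξ)) :=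
      ((ContinuousLinearMap.apply ℂ F (c • ξ)).hasFDerivAt).restrictScalars ℝ
    exact hap.comp_hasDerivAt 0 h3
  have hp : (fun t : ℝ => Ψ (x + ((t : ℂ) * c) • ξ)) 0 = Ψ x := by
    simp only [hx0]
  have h4 := second_comp (φ := φ) hp hφ h1 h2
  rw [h4]
  simp only [hx0, map_smul, smul_smul, smul_apply]

theorem second_line {φ : F → ℝ} {p : F} (v : F) (c : ℂ) (hφ : ContDiffAt ℝ 2 φ p) :
    iteratedDeriv 2 (fun t : ℝ => φ (p + ((t : ℂ) * c) • v)) 0 =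
      (fderiv ℝ (fderiv ℝ φ) p (c • v)) (c • v) := by
  have hx0 : p + (((0 : ℝ) : ℂ) * c) • v = p := by simp
  have h4 := second_comp (φ := φ) (γ := fun t : ℝ => p + ((t : ℂ) * c) • v)
    (γ' := fun _ => c • v) (γ2 := 0) hx0 hφ
    (Filter.Eventually.of_forall (fun t => line_deriv p v c t)) (hasDerivAt_const 0 _)
  rw [h4, map_zero, add_zero]

theorem levi_chain (Ψ : E → F) (φ : F → ℝ) (x ξ : E) (hΨ : ContDiffAt ℂ 2 Ψ x)
    (hφ : ContDiffAt ℝ 2 φ (Ψ x)) :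
    levi (fun y => φ (Ψ y)) x ξ = levi φ (Ψ x) (fderiv ℂ Ψ x ξ) := by
  have a1 := second_map ξ 1 hΨ hφ
  have a2 := second_map ξ Complex.I hΨ hφ
  have b1 := second_line (fderiv ℂ Ψ x ξ) 1 hφ
  have b2 := second_line (fderiv ℂ Ψ x ξ) Complex.I hφ
  simp only [mul_one] at a1 b1
  unfold levi
  rw [a1, a2, b1, b2, Complex.I_mul_I, neg_smul, map_neg]
  ring

end General

theorem s_chain : S_chain := by
  refine ⟨fun Ψ φ x ξ hΨ hφ => levi_chain Ψ φ x ξ hΨ hφ, fun L φ ζ hL hφ => ?_⟩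
  have h := levi_chain L φ ζ (1 : ℂ) hL hφ
  rwa [fderiv_apply_one_eq_deriv] at h

end Pool.Agent.H784.K
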